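import Pool.Agent.R446.KR.Fin

set_option autoImplicit false

/-!
# The dependence of the shifted moments of zeta on the shift: rigidity
-/

namespace Pool.Agent.Results.MP_069854_nt.ShiftRigidity

open Complex MeasureTheory Filter Topology Set Pool.Agent.TH535.SM Pool.Agent.R446.KR
open scoped ComplexConjugate Matrix

/-- The normalised shifted moment `Q_k(α,T)` of the problem. -/
noncomputable def Q (k : ℕ) (α T : ℝ) : ℂ :=
  (T : ℂ)⁻¹ * ((Real.log T : ℂ) ^ (k ^ 2))⁻¹ *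
    ∫ t in (0:ℝ)..T, riemannZeta (1 / 2 + I * α / Real.log T + I * t) ^ k *
      riemannZeta (1 / 2 + I * α / Real.log T - I * t) ^ k

/-- The normalised Haar measure `dU` of `U(N)`. -/
noncomputable def haar (N : ℕ) : Measure (Matrix.unitaryGroup (Fin N) ℂ) := Measure.haarMeasure ⊤

/-- The matrix integral `W_k(α,N)` of the problem. -/
noncomputable def W (k : ℕ) (α : ℝ) (N : ℕ) : ℂ :=
  ((N : ℂ) ^ (k ^ 2))⁻¹ * ∫ U : Matrix.unitaryGroup (Fin N) ℂ,
    (1 - cexp (-(I * α / N)) • (U : Matrix (Fin N) (Fin N) ℂ)).det ^ k *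
      (1 - cexp (-(I * α / N)) • (U : Matrix (Fin N) (Fin N) ℂ)ᴴ).det ^ k ∂(haar N)

/-- The number `d_k(n)` of ordered factorisations of `n` into `k` positive factors. -/
def dk (k n : ℕ) : ℕ := (Nat.finMulAntidiag k n).card

/-- The arithmetic constant `a_k`. -/
noncomputable def ak (k : ℕ) : ℝ := ∏' p : Nat.Primes, (1 - 1 / (p : ℝ)) ^ (k ^ 2) *
  ∑' m : ℕ, (dk k ((p : ℕ) ^ m) : ℝ) ^ 2 / (p : ℝ) ^ m

lemma integrand_eq (k : ℕ) (a t : ℝ) : riemannZeta (1 / 2 + I * a + I * t) ^ k *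
    riemannZeta (1 / 2 + I * a - I * t) ^ k = zk k (t + a) * conj (zk k (t + -a)) := by
  unfold zk ze
  have e1 : (1 / 2 + I * a + I * t : ℂ) = 1 / 2 + ((t + a : ℝ) : ℂ) * I := by push_cast; ring
  have e2 : (1 / 2 + I * a - I * t : ℂ) = conj (1 / 2 + ((t + -a : ℝ) : ℂ) * I) := by
    rw [map_add, map_mul, conj_I, Complex.conj_ofReal, map_div₀, map_one, map_ofNat]
    push_cast
    ring
  rw [e1, e2, riemannZeta_conj, map_pow]

lemma Q_eq (k : ℕ) (α T : ℝ) : Q k α T =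
    Cor (zk k) (α / Real.log T) T / ((NN (k ^ 2) T : ℝ) : ℂ) := by
  unfold Q Cor NN
  have e : ∫ t in (0:ℝ)..T, riemannZeta (1 / 2 + I * α / Real.log T + I * t) ^ k *
      riemannZeta (1 / 2 + I * α / Real.log T - I * t) ^ k =
      ∫ t in (0:ℝ)..T, zk k (t + α / Real.log T) * conj (zk k (t + -(α / Real.log T))) := by
    refine intervalIntegral.integral_congr fun t _ => ?_
    rw [← integrand_eq]
    have : (I * α / Real.log T : ℂ) = I * ((α / Real.log T : ℝ) : ℂ) := by push_cast; ring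
    rw [this]
  rw [e, Complex.ofReal_mul, Complex.ofReal_pow, ← mul_inv]
  exact (div_eq_inv_mul _ _).symm

lemma Q_zero (k : ℕ) (T : ℝ) : (Q k 0 T).re = M (zk k) T / NN (k ^ 2) T := by
  rw [Q_eq, zero_div, Cor_zero, ← Complex.ofReal_div, Complex.ofReal_re]

/-- Let `A` be a set of shifts which has infinitely many points in some bounded interval or contains a
lattice `c ℤ` with `0 < c < π / k`. (1) For every real `α` and `ε > 0` there is a finite linear
combination of shifts in `A` which approximates both `W_k(α,N)`, for all `N`, and `Q_k(α,T)`, for all `T`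
outside sets of measure `≤ C log² X` in `[X,2X]`, up to `ε` times the unshifted moment.
(2) If some `α₀ ∈ A` has `k |α₀| < π / 2` and the conjectured asymptotics holds for all shifts in `A`,
then it holds for all real shifts, in particular for `α = 0`. -/
theorem result (k : ℕ) (A : Set ℝ)
    (hA : (∃ R : ℝ, (A ∩ Icc (-R) R).Infinite) ∨ ∃ c : ℝ, 0 < c ∧ c * k < Real.pi ∧ ∀ m : ℤ, c * m ∈ A) :
    (∀ α ε : ℝ, 0 < ε → ∃ (s : Finset ℝ) (c : ℝ → ℂ), (∀ a ∈ s, a ∈ A) ∧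
      (∀ N : ℕ, 1 ≤ N → ‖W k α N - ∑ a ∈ s, c a * W k a N‖ ≤ ε * ‖W k 0 N‖) ∧
      ∃ C X₀ : ℝ, ∀ X : ℝ, X₀ ≤ X → ∃ E : Set ℝ, MeasurableSet E ∧ E ⊆ Icc X (2 * X) ∧
        volume E ≤ ENNReal.ofReal (C * Real.log X ^ 2) ∧
        ∀ T ∈ Icc X (2 * X), T ∉ E →
          ‖Q k α T - ∑ a ∈ s, c a * Q k a T‖ ≤ ε * ((Q k 0 T).re + 1)) ∧
    ∀ α₀ ∈ A, k * |α₀| < Real.pi / 2 →
      ∀ 𝒲 : ℝ → ℂ, (∀ α : ℝ, Tendsto (fun N : ℕ => W k α N) atTop (𝓝 (𝒲 α))) →
        (∀ α ∈ A, Tendsto (fun T : ℝ => Q k α T) atTop (𝓝 (ak k * 𝒲 α))) →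
        ∀ α : ℝ, Tendsto (fun T : ℝ => Q k α T) atTop (𝓝 (ak k * 𝒲 α)) := by
  have hC : Cpl A k := by
    rcases hA with ⟨R, hR⟩ | ⟨c, h1, h2, h3⟩
    · exact cpl_of_infinite hR
    · exact cpl_of_lattice h1 h2 h3
  constructor
  · intro α ε hε
    obtain ⟨s, c, h1, h2, C, X0, h3⟩ := common k hC α hε
    refine ⟨s, c, h1, h2, C, X0, fun X hX => ?_⟩
    obtain ⟨E, e1, e2, e3, e4⟩ := h3 X hX
    refine ⟨E, e1, e2, e3, fun T hT hTE => ?_⟩
    have h := e4 T hT hTE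
    rw [Q_zero]
    simp only [Q_eq]
    exact h
  · intro α₀ h0 h0' 𝒲 hW hlim α
    have h := rigid_zeta k hC h0 (by rw [mul_comm]; exact h0') (ak k : ℂ) 𝒲 hW (fun a ha => by
      have := hlim a ha
      simp only [Q_eq] at this
      exact this) α
    simp only [Q_eq]
    exact h

end Pool.Agent.Results.MP_069854_nt.ShiftRigidity
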