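import Pool.Agent.R461.HM.JAs2
import Pool.Agent.R461.HM.Lam

set_option autoImplicit false

/-!
# MP_069854_nt: the shifted moments of zeta at two heights factorise

Let `φ(α) = ∫ ψ(v) e^{ivα} dv` and let `G_k(t)` be the integral over the shift `α` of `φ(α)` times the integrand
`(log T)^(-k²) ζ(1/2 + iα/log T + it)^k ζ(1/2 + iα/log T - it)^k` of `Q_k(α, T)`. For all `k, l ≥ 1` the mean of
`G_k(t) G_l(s)` over every joint law of the heights `t, s` with small joint characters tends to the product of the limits of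
the means of the two factors; for almost every `λ > 0` this holds for `s = λ t`, `t` uniform on `[T, 2T]`.
-/

namespace Pool.Agent.Results.MP_069854_nt.JointHeights

open Complex MeasureTheory Filter Topology Set
open scoped ContDiff ENNReal

noncomputable section

/-- the arithmetic factor `a_k` -/
def ak (k : ℕ) : ℝ :=
  ∏' p : Nat.Primes, ((1 - 1 / (p : ℝ)) ^ (k ^ 2) * ∑' m : ℕ, ((m + k - 1).choose m : ℝ) ^ 2 * (1 / (p : ℝ)) ^ m)

/-- `φ(α) = ∫ ψ(v) e^{ivα} dv` -/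
def phi (ψ : ℝ → ℂ) (α : ℝ) : ℂ := ∫ v : ℝ, ψ v * exp (I * v * α)

/-- the integral over the shift of `φ` times the integrand of `Q_k(α, T)` at the height `t` -/
def G (k : ℕ) (ψ : ℝ → ℂ) (T t : ℝ) : ℂ :=
  ∫ α : ℝ, phi ψ α * (((Real.log T : ℂ) ^ (k ^ 2))⁻¹ *
    (riemannZeta (1 / 2 + I * α / Real.log T + I * t) ^ k * riemannZeta (1 / 2 + I * α / Real.log T - I * t) ^ k))

/-- the limit of the means of `G` -/
def limG (k : ℕ) (ψ : ℝ → ℂ) : ℂ :=
  2 * Real.pi * ak k * ∫ u in Set.Ioi (0:ℝ), (u : ℂ) ^ (k ^ 2 - 1) / (k ^ 2 - 1).factorial * ψ (2 * u)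

/-- the joint laws of two heights in `[T/D, DT]` with small joint characters -/
structure Pairs (T D κ : ℝ) (μ : Measure (ℝ × ℝ)) : Prop where
  prob : IsProbabilityMeasure μ
  supp : ∀ᵐ p ∂μ, p.1 ∈ Icc (T / D) (D * T) ∧ p.2 ∈ Icc (T / D) (D * T)
  small : ∀ m n m' n' : ℕ, 1 ≤ m → 1 ≤ n → 1 ≤ m' → 1 ≤ n' → (m ≠ n ∨ m' ≠ n') → (m : ℝ) * n ≤ T ^ κ →
    (m' : ℝ) * n' ≤ T ^ κ →
    ‖∫ p : ℝ × ℝ, exp (I * (p.1 * Real.log (m / n) + p.2 * Real.log (m' / n'))) ∂μ‖ ≤ T ^ (-κ)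

lemma phi_eq (ψ : ℝ → ℂ) (α : ℝ) : phi ψ α = W182.KO.P ψ (α * I) := by
  unfold phi W182.KO.P
  congr 1; funext v
  congr 2
  ring

lemma G_eq (k : ℕ) (ψ : ℝ → ℂ) (T t : ℝ) : G k ψ T t = R461.HM.Gk k ψ T t := by
  unfold G R461.HM.Gk
  simp only [phi_eq]

lemma limG_eq (k : ℕ) (ψ : ℝ → ℂ) : limG k ψ = R461.HM.lim1 k ψ := rfl

lemma pair_emb (l : ℝ) : MeasurableEmbedding (fun t : ℝ => (t, l * t)) :=
  Continuous.measurableEmbedding (by fun_prop) (fun x y h => by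
    simp only [Prod.mk.injEq] at h
    exact h.1)

lemma pairLaw_integral {T : ℝ} (hT : 0 < T) (l : ℝ) (f : ℝ × ℝ → ℂ) :
    ∫ p, f p ∂(R461.HM.pairLaw T l) = (T : ℂ)⁻¹ * ∫ t in Icc T (2 * T), f (t, l * t) := by
  unfold R461.HM.pairLaw
  rw [(pair_emb l).integral_map, integral_smul_measure, ENNReal.toReal_inv, ENNReal.toReal_ofReal hT.le, Complex.real_smul]
  push_cast
  rfl

/-- (1) Let `0 < κ ≤ 1`, `k, l ≥ 1`, `ψ₁, ψ₂` smooth with compact support, vanishing above `κ/4`, `D ≥ 1`, `η > 0`. For large `T`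
and all joint laws `μ` of two heights with the parameters `D`, `κ` the mean of `G_k(t) G_l(s)` differs from the product of the
limits by at most `η`. (2) For almost every `λ > 0`, for all `k, l ≥ 1` and smooth `ψ₁, ψ₂` with compact support vanishing above
`1/40` the mean of `G_k(t) G_l(λ t)` over `t ∈ [T, 2T]` tends to the product of the limits. -/
theorem result :
    (∀ κ : ℝ, 0 < κ → κ ≤ 1 → ∀ k l : ℕ, 1 ≤ k → 1 ≤ l → ∀ ψ₁ ψ₂ : ℝ → ℂ, ContDiff ℝ ∞ ψ₁ → HasCompactSupport ψ₁ →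
      (∀ ξ : ℝ, κ / 4 < ξ → ψ₁ ξ = 0) → ContDiff ℝ ∞ ψ₂ → HasCompactSupport ψ₂ → (∀ ξ : ℝ, κ / 4 < ξ → ψ₂ ξ = 0) →
      ∀ D : ℝ, 1 ≤ D → ∀ η : ℝ, 0 < η → ∃ T₀ : ℝ, ∀ T : ℝ, T₀ ≤ T → ∀ μ : Measure (ℝ × ℝ), Pairs T D κ μ →
        ‖(∫ p : ℝ × ℝ, G k ψ₁ T p.1 * G l ψ₂ T p.2 ∂μ) - limG k ψ₁ * limG l ψ₂‖ ≤ η) ∧
    (∀ᵐ lam : ℝ, 0 < lam → ∀ k l : ℕ, 1 ≤ k → 1 ≤ l → ∀ ψ₁ ψ₂ : ℝ → ℂ, ContDiff ℝ ∞ ψ₁ → HasCompactSupport ψ₁ →
      (∀ ξ : ℝ, 1 / 40 < ξ → ψ₁ ξ = 0) → ContDiff ℝ ∞ ψ₂ → HasCompactSupport ψ₂ → (∀ ξ : ℝ, 1 / 40 < ξ → ψ₂ ξ = 0) →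
      Tendsto (fun T : ℝ => (T : ℂ)⁻¹ * ∫ t in Icc T (2 * T), G k ψ₁ T t * G l ψ₂ T (lam * t)) atTop
        (𝓝 (limG k ψ₁ * limG l ψ₂))) := by
  simp only [G_eq, limG_eq]
  constructor
  · intro κ hκ hκ1 k l hk hl ψ₁ ψ₂ a1 a2 a3 b1 b2 b3 D hD η hη
    obtain ⟨T₀, -, h⟩ := R461.HM.joint_asym hk hl hκ hκ1 ⟨a1, a2, a3⟩ ⟨b1, b2, b3⟩ hD η hη
    exact ⟨T₀, fun T hT μ hμ => h T hT μ hμ.prob hμ.supp hμ.small⟩
  · filter_upwards [R461.HM.lam_small (κ := 1 / 10) (by norm_num) le_rfl] with lam hlam hpos k l hk hl ψ₁ ψ₂ a1 a2 a3 b1 b2 b3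
    obtain ⟨T₁, hT₁, hsm⟩ := hlam
    obtain ⟨D, hD⟩ : ∃ D : ℝ, D = 2 + 2 * lam + 1 / lam := ⟨_, rfl⟩
    have hl1 : 0 < 1 / lam := by positivity
    have hD1 : 1 ≤ D := by rw [hD]; linarith
    rw [Metric.tendsto_nhds]
    intro ε hε
    obtain ⟨T₀, hT₀, h⟩ := R461.HM.joint_asym (κ := 1 / 10) hk hl (by norm_num) (by norm_num)
      ⟨a1, a2, fun ξ hξ => a3 ξ (by linarith)⟩ ⟨b1, b2, fun ξ hξ => b3 ξ (by linarith)⟩ hD1 (ε / 2) (by positivity)
    filter_upwards [eventually_ge_atTop (max T₀ T₁)] with T hT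
    have hTa := (le_max_left _ _).trans hT
    have hTb := (le_max_right _ _).trans hT
    have hT1 : 1 ≤ T := hT₁.trans hTb
    have hT0 : 0 < T := by linarith
    have h3 := h T hTa (R461.HM.pairLaw T lam) (R461.HM.pairLaw_prob hT0 lam) (by
      unfold R461.HM.pairLaw
      refine (ae_map_iff (p := fun p : ℝ × ℝ => p.1 ∈ Icc (T / D) (D * T) ∧ p.2 ∈ Icc (T / D) (D * T))
        (R461.HM.pairLaw_meas lam).aemeasurable ?_).2 ?_
      · exact (measurableSet_Icc.preimage measurable_fst).inter (measurableSet_Icc.preimage measurable_snd)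
      · refine Measure.ae_smul_measure ?_ _
        filter_upwards [ae_restrict_mem measurableSet_Icc] with t ht
        have hD0 : 0 < D := by linarith
        have h1D : T / D ≤ T := div_le_self hT0.le hD1
        have h2D : 2 * T ≤ D * T := by
          have : 2 ≤ D := by rw [hD]; linarith
          gcongr
        refine ⟨⟨h1D.trans ht.1, ht.2.trans h2D⟩, ?_, ?_⟩
        · show T / D ≤ lam * t
          rw [div_le_iff₀ hD0]
          have h5 : 1 ≤ lam * D := by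
            have h6 : lam * (1 / lam) = 1 := by field_simp
            rw [hD]
            nlinarith
          calc T = T * 1 := (mul_one T).symm
            _ ≤ t * (lam * D) := mul_le_mul ht.1 h5 (by norm_num) (by linarith [ht.1])
            _ = lam * t * D := by ring
        · show lam * t ≤ D * T
          have h6 : 2 * lam ≤ D := by rw [hD]; linarith
          calc lam * t ≤ lam * (2 * T) := by
                have := ht.2
                gcongr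
            _ = 2 * lam * T := by ring
            _ ≤ D * T := by gcongr) (hsm T hTb)
    rw [pairLaw_integral hT0] at h3
    rw [dist_eq_norm]
    exact h3.trans_lt (by linarith)

end

end Pool.Agent.Results.MP_069854_nt.JointHeights
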