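import Pool.Agent.R461.HM.Lim

set_option autoImplicit false

/-!
# MP_069854_nt: the spectrum of the shifted moments, the heights being distributed by an arbitrary measure

Instead of the uniform distribution of `t` on `[0, T]` the heights `t` are distributed by any probability measure `ν` on
`[T, 2T]` (singular or discrete) for which the integrals of `(m/n)^(it)`, `m ≠ n`, `m n ≤ T^(2θ)`, are small. Let `ψ` be
smooth with compact support, vanishing above `2θ`, `φ(α) = ∫ ψ(ξ) e^{iξα} dξ`. For every integer `k ≥ 1` the integral of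
`φ(α)` against the shifted moment is `2π (log T)^(-k²) ∑_n d_k(n)² / n ψ(2 log n / log T)` up to a power saving, and tends
to `2π a_k ∫_0^∞ u^(k²-1) / (k²-1)! ψ(2u) du`. This holds for the heights `T x`, `x` distributed by any measure on `[1,2]`
with Fourier transform `O(|u|^(-s))`, `s > θ`; such measures may be singular if `s ≤ 1/2`.
-/

namespace Pool.Agent.Results.MP_069854_nt.MeasuresOfHeights

open Complex MeasureTheory Filter Topology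
open scoped ContDiff
open Pool.Agent.R461.HM

noncomputable section

/-- the number `d_k(n)` of ordered factorisations of `n` into `k` factors -/
def dk (k n : ℕ) : ℕ := (Nat.finMulAntidiag k n).card

/-- `φ(α) = ∫ ψ(ξ) e^{iξα} dξ` -/
def phi (ψ : ℝ → ℂ) (α : ℝ) : ℂ := ∫ ξ : ℝ, ψ ξ * exp (I * ξ * α)

lemma phi_eq (ψ : ℝ → ℂ) (α : ℝ) : phi ψ α = W182.KO.P ψ (α * I) := by
  unfold phi W182.KO.P
  congr 1; funext ξ
  congr 2
  ring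

/-- the probability measures `μ` on `[1, 2]` with `|∫ e^{iux} dμ(x)| ≤ K |u|^(-s)` for `|u| ≥ 1` -/
def Decay (s K : ℝ) (μ : Measure ℝ) : Prop :=
  IsProbabilityMeasure μ ∧ (∀ᵐ x ∂μ, x ∈ Set.Icc (1:ℝ) 2) ∧
    ∀ u : ℝ, 1 ≤ |u| → ‖∫ x : ℝ, exp (I * (u * x)) ∂μ‖ ≤ K * |u| ^ (-s)

theorem result (k : ℕ) (hk : 1 ≤ k) (θ : ℝ) (hθ : 0 ≤ θ) (ψ : ℝ → ℂ)
    (hψ : ContDiff ℝ ∞ ψ) (hc : HasCompactSupport ψ) (hs : ∀ ξ : ℝ, 2 * θ < ξ → ψ ξ = 0) :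
    (∀ θ' : ℝ, θ < θ' → ∀ N : ℕ, ∃ C T₀ : ℝ, ∀ T : ℝ, T₀ ≤ T → ∀ (ν : Measure ℝ) (δ : ℝ), 0 ≤ δ →
      Heights T (T ^ (2 * θ)) δ ν →
      Integrable (fun α : ℝ => phi ψ α * Qn k ν α T) ∧
      ‖(∫ α : ℝ, phi ψ α * Qn k ν α T) - 2 * Real.pi / (Real.log T : ℂ) ^ (k ^ 2) *
        ∑' n : ℕ, (dk k n : ℂ) ^ 2 / n * ψ (2 * Real.log n / Real.log T)‖ ≤ C * (δ * T ^ θ' + (T ^ N)⁻¹)) ∧
    (∀ θ' : ℝ, θ < θ' → ∀ η : ℝ, 0 < η → ∃ T₀ : ℝ, ∀ T : ℝ, T₀ ≤ T → ∀ ν : Measure ℝ,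
      Heights T (T ^ (2 * θ)) (T ^ (-θ')) ν →
      ‖(∫ α : ℝ, phi ψ α * Qn k ν α T) - 2 * Real.pi * ak k *
        ∫ u in Set.Ioi (0:ℝ), (u : ℂ) ^ (k ^ 2 - 1) / (k ^ 2 - 1).factorial * ψ (2 * u)‖ ≤ η) ∧
    (∀ s K : ℝ, θ < s → s ≤ 1 → 0 ≤ K → ∀ η : ℝ, 0 < η → ∃ T₀ : ℝ, ∀ T : ℝ, T₀ ≤ T → ∀ μ : Measure ℝ, Decay s K μ →
      ‖(∫ α : ℝ, phi ψ α * Qn k (μ.map fun x => T * x) α T) - 2 * Real.pi * ak k *
        ∫ u in Set.Ioi (0:ℝ), (u : ℂ) ^ (k ^ 2 - 1) / (k ^ 2 - 1).factorial * ψ (2 * u)‖ ≤ η) := by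
  have hsq : ∀ n : ℕ, (dk k n : ℂ) ^ 2 = (W182.KO.dk k n : ℂ) * W182.KO.dk k n := fun n => by
    rw [show (dk k n : ℂ) = (W182.KO.dk k n : ℂ) from rfl, sq]
  simp only [phi_eq, hsq]
  refine ⟨fun θ' hθ' N => ?_, fun θ' hθ' η hη => ?_, fun s K hsθ hs1 hK η hη => ?_⟩
  · obtain ⟨C, T₀, -, -, h⟩ := explicit_form hθ hθ' hψ hc hs hk N
    exact ⟨C, T₀, h⟩
  · obtain ⟨T₀, -, h⟩ := limit_form hθ hθ' hψ hc hs hk η hη
    exact ⟨T₀, fun T hT ν hν => (h T hT ν hν).2⟩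
  · obtain ⟨θ', h1, h2⟩ := exists_between hsθ
    obtain ⟨T₁, -, h⟩ := limit_form hθ h1 hψ hc hs hk η hη
    obtain ⟨T₂, hT₂, h'⟩ := dilated (by linarith) hs1 hK h2
    refine ⟨max T₁ T₂, fun T hT μ hμ => ?_⟩
    have hT0 : 0 < T := by linarith [(le_max_right T₁ T₂).trans hT]
    exact (h T ((le_max_left _ _).trans hT) _
      (h' T ((le_max_right _ _).trans hT) μ hμ.1 hμ.2.1 hμ.2.2 (T ^ (2 * θ)) (by positivity))).2

end

end Pool.Agent.Results.MP_069854_nt.MeasuresOfHeights
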